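import Pool.Agent.H31R4.Alp.Final
import Pool.Agent.H31R4.Alp.NearHolds

/-!
Bond percolation on the square lattice: the mean cluster density is given near `p = 1/2` by its
second order Taylor polynomial up to an error of order `|p - 1/2| ^ (8/3 - ε)`.
-/

namespace Pool.Agent.Results.MP_6bd702_pr.AlphaUpper

open H31A

theorem result : ∃ κ : ℝ → ℝ,
    (∀ p : ℝ, 0 ≤ p → p ≤ 1 → Filter.Tendsto (fun n : ℕ => meanClusters n p / (n : ℝ) ^ 2)
      Filter.atTop (nhds (κ p))) ∧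
    (∀ p : ℝ, 0 < p → p < 1 → DifferentiableAt ℝ κ p) ∧
    DifferentiableAt ℝ (deriv κ) (1 / 2) ∧
    ∀ ε : ℝ, 0 < ε → ∃ C : ℝ, ∀ p : ℝ, 0 ≤ p → p ≤ 1 →
      |κ p - κ (1 / 2) - deriv κ (1 / 2) * (p - 1 / 2) -
        deriv (deriv κ) (1 / 2) / 2 * (p - 1 / 2) ^ 2| ≤ C * |p - 1 / 2| ^ ((8 : ℝ) / 3 - ε) :=
  alpha_final near_holds

end Pool.Agent.Results.MP_6bd702_pr.AlphaUpper
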