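import Pool.Agent.H342R2.Per.Sharp
import Pool.Agent.H984R3.Per.UpPi
import Pool.Agent.H984R3.Per.LowEV
import Pool.Agent.H985R3.TA.Main

/-!
# The outer perimeter of the largest critical percolation cluster has order `n ^ (7/4)`

Critical bond percolation on `ℤ²` in the box `Λ_n = {0, …, n}²`: `F` is the set of open edges,
uniformly distributed on the subsets of `edges n` (`Plain.prob`).  `Plain.Largest n F v` says that
the cluster of `v` has the largest Euclidean diameter, `Plain.perimeter F v` is the number of steps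
of the closed lattice path which traces the boundary of the unbounded component of the complement
of this cluster, and `Plain.perimeterEdges F v` is the number of different edges on it.  All these
definitions are in `Pool/Agent/H342R2/Per/Plain.lean`.
-/

namespace Pool.Agent.Results.MP_6bd702_pr.PerimeterExponent

open H342P Filter Topology

/-- The two-arm bounds in the form used below. -/
theorem inputs : (∃ c : ℝ, 0 < c ∧ H984P.LowA c (1/4)) ∧ (∃ C : ℝ, 0 < C ∧ TwoUp C (1/4)) := by
  constructor
  · obtain ⟨B, m0, κ, hκ, h⟩ := H985T.EV_lower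
    obtain ⟨c, hc, h2⟩ := H984P.lowA_of_EV (B := B) (m0 := m0) (s := 1/4) hκ (by norm_num)
      (fun m hm => by
        obtain ⟨ρ, c, s, c', f0, h1, h2, h3⟩ := h m hm
        exact ⟨ρ, c, s, c', f0, h2, h1, h3⟩)
    exact ⟨c, hc, h2⟩
  · obtain ⟨C, hC, h⟩ := H985T.pi2_upper
    exact ⟨C, hC, H984P.twoUp_of_pi2 hC (by norm_num) h⟩

/-- Let `C` be a cluster of largest Euclidean diameter in `Λ_n` (any of them, if there are
several).  (1) There is always such a cluster.  (2) For every `δ > 0` there are constants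
`0 < lam < Lam` such that, for all large `n`, with probability at least `1 - δ` the outer perimeter
of `C` lies between `lam * n ^ (7/4)` and `Lam * n ^ (7/4)`.  (3) For every `ε > 0` the
probability that the outer perimeter of `C` lies in `(n ^ (7/4 - ε), n ^ (7/4 + ε))` tends to one.
Both (2) and (3) hold for the number of steps and for the number of different edges, since
`perimeterEdges ≤ perimeter`. -/
theorem result :
    (∀ (n : ℕ) (F : Finset Plain.Edge), ∃ v, Plain.Largest n F v) ∧
    (∀ (F : Finset Plain.Edge) (v : ℤ × ℤ), Plain.perimeterEdges F v ≤ Plain.perimeter F v) ∧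
    (∀ δ : ℝ, 0 < δ → ∃ lam Lam : ℝ, 0 < lam ∧ lam < Lam ∧ ∀ᶠ n : ℕ in atTop,
      1 - δ ≤ Plain.prob n (fun F => ∀ v, Plain.Largest n F v →
        lam * (n:ℝ) ^ (7/4 : ℝ) ≤ (Plain.perimeterEdges F v : ℝ) ∧
          (Plain.perimeter F v : ℝ) ≤ Lam * (n:ℝ) ^ (7/4 : ℝ))) ∧
    (∀ ε : ℝ, 0 < ε → Tendsto (fun n : ℕ => Plain.prob n (fun F => ∀ v, Plain.Largest n F v →
      (n:ℝ) ^ (7/4 - ε) < (Plain.perimeterEdges F v : ℝ) ∧
        (Plain.perimeter F v : ℝ) < (n:ℝ) ^ (7/4 + ε))) atTop (𝓝 1)) := by
  obtain ⟨⟨c, hc, hL⟩, C, hC, hU⟩ := inputs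
  refine ⟨Plain.exists_largest, Plain.perimeterEdges_le, fun δ hδ => sharp_of hc hC hL hU hδ,
    fun ε hε => ?_⟩
  exact weak_of_sharp (fun δ hδ => sharp_of hc hC hL hU hδ) hε

end Pool.Agent.Results.MP_6bd702_pr.PerimeterExponent
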