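import Pool.Agent.H342R3.Lim.Ex
import Pool.Agent.H342R3.Lim.CPT
import Pool.Agent.H342R3.Lim.EN
import Pool.Agent.H342R3.Lim.GOOD
import Pool.Agent.H342R3.Lim.HIT
import Pool.Agent.H342R3.Lim.LAY
import Pool.Agent.H342R3.Lim.RICH
import Pool.Agent.H342R3.Lim.SQ
import Pool.Agent.H342R3.Lim.TOPA
import Pool.Agent.H342R3.Lim.TOPB
import Pool.Agent.H342R3.Lim.TP
import Pool.Agent.H342R3.Lim.UPG
import Pool.Agent.H342R3.Pin.BIG
import Pool.Agent.H342R3.Pin.BRI
import Pool.Agent.H342R3.Pin.CLO
import Pool.Agent.H342R3.Pin.CUR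
import Pool.Agent.H342R3.Pin.DET
import Pool.Agent.H342R3.Pin.Fin
import Pool.Agent.H342R3.Pin.ITE
import Pool.Agent.H342R3.Pin.LOW
import Pool.Agent.H342R3.Pin.PAR
import Pool.Agent.H342R3.Pin.PLA
import Pool.Agent.H342R3.Pin.PRR
import Pool.Agent.H342R3.Pin.ROT
import Pool.Agent.H342R3.Pin.TRI
import Pool.Agent.H342R3.Pin.XM
import Pool.Agent.H342R3.Tig.ARZ
import Pool.Agent.H342R3.Tig.CNT
import Pool.Agent.H342R3.Tig.EXI
import Pool.Agent.H342R3.Tig.Fin
import Pool.Agent.H342R3.Tig.GRD
import Pool.Agent.H342R3.Tig.ORB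
import Pool.Agent.H342R3.Tig.POL
import Pool.Agent.H342R3.Tig.PRK
import Pool.Agent.H342R3.Tig.RNG
import Pool.Agent.H342R3.Tig.SML
import Pool.Agent.H985R3.TA.STA
import Pool.Agent.Results.MP_6bd702_pr.PerimeterExponent

/-!
# Scaling limits of the outer perimeter of the largest critical cluster

Critical bond percolation on `ℤ²` in the box `Λ_n = {0, …, n}²`.  `Plain.Largest n F v` says that
the cluster of `v` has the largest Euclidean diameter among the clusters of the configuration `F`
(a set of open edges of the box).  `outerBoundary n F v` is the boundary of the unbounded component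
of the complement of this cluster (vertices and closed edge segments), scaled by `1 / n`, and
`IsTrace n F v c` says that `c` is the closed lattice path tracing it.  `Curve` is the space of
curves, with the distance modulo increasing reparametrisation; `lawOf n f` is the law of `f F` when
all sets `F` of open edges of the box are equally likely.  The definitions are in
`Pool/Agent/H342R2/Per/Plain.lean`, `Pool/Agent/H342R3/Lim/{Defs,Curve,Law}.lean`,
`Pool/Agent/H342R3/Tig/Defs.lean`, `Pool/Agent/H342R3/Pin/Defs.lean` and (states of the tracing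
path) `Pool/Agent/H984R3/Per/Defs.lean`.
-/

namespace Pool.Agent.Results.MP_6bd702_pr.LimitCurves

open H342L H342N H342T H342P H342P.Plain MeasureTheory TopologicalSpace Filter Topology

theorem sets (sel : (n : ℕ) → Finset Edge → ℤ × ℤ)
    (hsel : ∀ n F, 0 < n → F ⊆ edges n → Largest n F (sel n F))
    (k : ℕ → ℕ) (hk : Tendsto k atTop atTop) (μ : ProbabilityMeasure (NonemptyCompacts ℂ))
    (hμ : Tendsto (fun i => lawOf (k i) (fun F => bdOf t_CPT (k i) F (sel (k i) F))) atTop (𝓝 μ)) :
    ∀ᵐ K : NonemptyCompacts ℂ ∂(μ : Measure (NonemptyCompacts ℂ)), dimH (K : Set ℂ) = 7 / 4 :=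
  fin_sets t_CPT
    (t_RICH (t_EN t_TP) t_LAY H985T.st_A PerimeterExponent.inputs.1 PerimeterExponent.inputs.2)
    (t_GOOD t_TOPA) (t_HIT t_TOPB H985T.st_A) t_UPG t_SQ hsel hk hμ

theorem pinch : St_PAR :=
  t_PAR (t_TRI t_XM t_PRR t_DET) (t_LOW t_ITE t_ROT) (t_BIG t_BRI)

theorem rng : St_RNG := t_RNG t_ORB t_POL

/-- Claim 2 for all subsequential limits.  (1) For every cluster of `Λ_n` the closed lattice path
tracing the boundary of the unbounded component of its complement exists, it is closed, and its
trace is this boundary.  Let `C_n` be a cluster of largest Euclidean diameter (`sel` chooses one of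
them, by any rule) and `γ_n` the path tracing its outer boundary, divided by `n`.
(2) The laws of `γ_n` are relatively compact: every sequence of scales has a subsequence along which
the law of `γ_n` converges in the space of curves modulo reparametrisation.
(3) If the law of `γ_n` (or of any other closed curve with the same trace) converges along some
sequence of scales, then, almost surely with respect to the limit, the curve is closed, its trace
has Hausdorff dimension `7/4`, and it is not self-avoiding: it takes the same value at two times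
without being constant on one of the two arcs between them. -/
theorem result :
    (∀ (n : ℕ) (F : Finset Edge) (v : ℤ × ℤ), 0 < n → F ⊆ edges n → v ∈ box n →
      (∃ c, IsTrace n F v c) ∧ ∀ c, IsTrace n F v c →
        c.path 0 = c.path 1 ∧ Set.range c.path = outerBoundary n F v) ∧
    ∀ sel : (n : ℕ) → Finset Edge → ℤ × ℤ,
      (∀ n F, 0 < n → F ⊆ edges n → Largest n F (sel n F)) →
      (∀ γ : (n : ℕ) → Finset Edge → Curve,
        (∀ n F, 0 < n → F ⊆ edges n → IsTrace n F (sel n F) (γ n F)) →
        ∀ k : ℕ → ℕ, Tendsto k atTop atTop → ∃ (φ : ℕ → ℕ) (μ : ProbabilityMeasure Curve),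
          StrictMono φ ∧ Tendsto (fun i => lawOf (k (φ i)) (γ (k (φ i)))) atTop (𝓝 μ)) ∧
      (∀ γ : (n : ℕ) → Finset Edge → Curve,
        (∀ n F, 0 < n → F ⊆ edges n → (γ n F).path 0 = (γ n F).path 1 ∧
          Set.range (γ n F).path = outerBoundary n F (sel n F)) →
        ∀ (k : ℕ → ℕ) (μ : ProbabilityMeasure Curve), Tendsto k atTop atTop →
          Tendsto (fun i => lawOf (k i) (γ (k i))) atTop (𝓝 μ) →
          ∀ᵐ c : Curve ∂(μ : Measure Curve), c.path 0 = c.path 1 ∧
            dimH (Set.range c.path) = 7 / 4 ∧ HasDouble c) := by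
  refine ⟨fun n F v hn hF hv => ⟨t_EXI n F v hn hF hv, fun c hc => rng n F v c hn hF hv hc⟩,
    fun sel hsel => ⟨?_, ?_⟩⟩
  · intro γ hγ k hk
    exact tight_curves rng (t_GRD t_POL) (t_SML t_POL) t_CNT t_ARZ t_PRK hsel hγ k hk
  · intro γ hγ k μ hk hμ
    have h1 := fin_loop (fun n F hn hF => (hγ n F hn hF).1) hk hμ
    have h2 := fin_curves t_CPT sets sel hsel γ (fun n F hn hF => (hγ n F hn hF).2) k hk μ hμ
    have h3 := fin_double pinch t_PLA t_CUR t_CLO t_DBL hsel
      (fun n F hn hF => (hγ n F hn hF).2) (fun n F hn hF => (hγ n F hn hF).1) hk hμ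
    filter_upwards [h1, h2, h3] with c c1 c2 c3
    exact ⟨c1, c2, c3⟩

end Pool.Agent.Results.MP_6bd702_pr.LimitCurves
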