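import Pool.Agent.H863R2.NL.CLTT
import Pool.Agent.H863R2.NL.Inf

/-!
Critical bond percolation on the square lattice: the central limit theorem for the number of nested
layers around the origin, with the exact centering and the exact variance predicted by CLE₆.

`changes n ω` is the minimal number of colour changes of a path from the origin to the distance `n`,
i.e. the number of nested alternating (open / dual-open) layers around the origin.

Definitions (in `Pool.Agent.H974R2.Model`, `Pool.Agent.H974R2.Infinite`,
`Pool.Agent.H863R2.NL.Defs`): `sqLattice`, `bondLaw`, `hlf` (`= 1/2`), `openGraph`; `Pt`, `Corner`,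
`Free`, `Change`, `ReachIn`, `norm2`, `changes`.

Formalisation: see `MP_fe58d8_pr.NestingExponents`.
-/

namespace Pool.Agent.Results.MP_6bd702_pr.NestingCLT

open MeasureTheory H974 Pool.Agent.H863R2.NL Filter
open scoped Real Topology

theorem result : ∀ x : ℝ, Tendsto (fun n : ℕ => (bondLaw hlf).real
      {ω | (changes n ω : ℝ) ≤ Real.log n / (2 * √3 * π) + x * √(Real.log n)}) atTop
    (𝓝 ((ProbabilityTheory.gaussianReal 0
      (Real.toNNReal (2 / (3 * √3 * π) - 1 / (2 * π ^ 2)))).real (Set.Iic x))) := by
  intro x
  refine (clt_ET x).congr (fun n => ?_)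
  rw [← prob_changes n (fun m => (m : ℝ) ≤ cN * Real.log n + x * √(Real.log n))]
  have e : cN * Real.log n = Real.log n / (2 * √3 * π) := by
    unfold cN; ring
  rw [e]

end Pool.Agent.Results.MP_6bd702_pr.NestingCLT
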